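import Pool.Agent.Helper34.CP.Goals

/-! # Packet HCF: hereditary subalgebras with commutative core -/

open scoped ComplexOrder

namespace Pool.Agent.Helper42.CP

open Pool.Agent.Helper39.Uct Pool.Agent.Helper34.CP

/-- commutation passes to closed spans -/
theorem comm_span {B : Type} [NonUnitalCStarAlgebra B] (S : Set B)
    (h : ∀ x ∈ S, ∀ y ∈ S, x * y = y * x) :
    ∀ x ∈ closure (Submodule.span ℂ S : Set B), ∀ y ∈ closure (Submodule.span ℂ S : Set B),
      x * y = y * x := by
  have h1 : ∀ x ∈ S, ∀ y ∈ closure (Submodule.span ℂ S : Set B), x * y = y * x := by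
    intro x hx y hy
    have hc : IsClosed {y : B | x * y = y * x} := isClosed_eq (by fun_prop) (by fun_prop)
    refine closure_minimal ?_ hc hy
    intro y hy
    refine Submodule.span_induction (p := fun y _ => x * y = y * x) ?_ ?_ ?_ ?_ hy
    · intro y hy
      exact h x hx y hy
    · simp
    · intro u v _ _ hu hv
      rw [mul_add, add_mul, hu, hv]
    · intro a u _ hu
      rw [mul_smul_comm, smul_mul_assoc, hu]
  intro x hx y hy
  have hc : IsClosed {x : B | x * y = y * x} := isClosed_eq (by fun_prop) (by fun_prop)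
  refine closure_minimal ?_ hc hx
  intro x hx
  refine Submodule.span_induction (p := fun x _ => x * y = y * x) ?_ ?_ ?_ ?_ hx
  · intro x hx
    exact h1 x hx y hy
  · simp
  · intro u v _ _ hu hv
    rw [mul_add, add_mul, hu, hv]
  · intro a u _ hu
    rw [mul_smul_comm, smul_mul_assoc, hu]

/-- Packet HCF. -/
theorem hcf (hBAS : S_BAS) : S_HCF := by
  intro B _ E hE hH e he hes hab
  by_contra h0
  apply hH
  obtain ⟨G, hG⟩ := (hBAS B E hE).gr
  have heG : e ∈ G.fib 1 := by
    rw [hG 1]
    exact he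
  obtain ⟨H, inst, ι, hher, hnt, -, G', hG'⟩ := Pool.Agent.Helper39.Uct.rg (Multiplicative ℤ) B G ⊤
    (Multiplicative ℤ) (Subgroup.subtype ⊤) e hes h0
    (fun q hq => absurd (Subgroup.mem_top q) hq) (by
      refine Submodule.le_topologicalClosure _ ?_
      refine Submodule.mem_iSup_of_mem (1 : (Subgroup.subtype (⊤ : Subgroup
        (Multiplicative ℤ))).ker) ?_
      simpa using heG)
  refine ⟨H, inst, ι, hher, hnt, ?_⟩
  refine Pool.Agent.Helper27.Uct2.ci (Multiplicative ℤ) H G' ?_
  intro x hx y hy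
  rw [hG'] at hx hy
  apply hher.1
  rw [map_mul, map_mul]
  refine comm_span _ ?_ _ hx _ hy
  rintro _ ⟨q, hq, b, hb, rfl⟩ _ ⟨q', hq', b', hb', rfl⟩
  have h1 : (q : Multiplicative ℤ) = 1 := hq
  have h2 : (q' : Multiplicative ℤ) = 1 := hq'
  rw [h1, hG 1] at hb
  rw [h2, hG 1] at hb'
  exact hab b hb b' hb'

end Pool.Agent.Helper42.CP
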